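import Pool.Agent.W443.DX.Stm4

set_option autoImplicit false

open MvPolynomial

namespace Pool.Agent.W236.DX.Den

open Pool.Agent.W443.DX

section
variable {k : Type} [Field k] (p : ℕ) (φ : W k →ₐ[k] W k) (u : W k)

/-- elements which have a central multiple in the left span of `1, u` -/
def NN (w : W k) : Prop := ∃ z : MvPolynomial (Fin 2) k, z ≠ 0 ∧ ∃ a b : W k,
  φ (nf k (expand p z)) * w = φ a + φ b * u

variable (hcen : ∀ (z : MvPolynomial (Fin 2) k) (w : W k),
  φ (nf k (expand p z)) * w = w * φ (nf k (expand p z)))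
variable (hmul : ∀ z z' : MvPolynomial (Fin 2) k,
  nf k (expand p (z * z')) = nf k (expand p z) * nf k (expand p z'))

include hmul in
theorem NN_add {w w' : W k} (h : NN p φ u w) (h' : NN p φ u w') : NN p φ u (w + w') := by
  obtain ⟨z, hz, a, b, hab⟩ := h
  obtain ⟨z', hz', a', b', hab'⟩ := h'
  refine ⟨z * z', mul_ne_zero hz hz',
    nf k (expand p z') * a + nf k (expand p z) * a',
    nf k (expand p z') * b + nf k (expand p z) * b', ?_⟩
  have e1 : φ (nf k (expand p (z * z'))) * w = φ (nf k (expand p z')) * (φ a + φ b * u) := by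
    rw [mul_comm z z', hmul, map_mul, mul_assoc, hab]
  have e2 : φ (nf k (expand p (z * z'))) * w' = φ (nf k (expand p z)) * (φ a' + φ b' * u) := by
    rw [hmul, map_mul, mul_assoc, hab']
  rw [mul_add, e1, e2]
  simp only [map_add, map_mul]
  noncomm_ring

include hcen in
theorem NN_left {w : W k} (h : NN p φ u w) (a : W k) : NN p φ u (φ a * w) := by
  obtain ⟨z, hz, a', b', hab⟩ := h
  refine ⟨z, hz, a * a', a * b', ?_⟩
  rw [← mul_assoc, hcen z (φ a), mul_assoc, hab]
  simp only [map_mul]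
  noncomm_ring

include hmul in
theorem NN_div {w : W k} (z : MvPolynomial (Fin 2) k) (hz : z ≠ 0)
    (h : NN p φ u (φ (nf k (expand p z)) * w)) : NN p φ u w := by
  obtain ⟨z', hz', a, b, hab⟩ := h
  refine ⟨z' * z, mul_ne_zero hz' hz, a, b, ?_⟩
  rw [hmul, map_mul, mul_assoc, hab]

/-- a left multiple of `v` lies in the span -/
theorem NN_rel {v : W k} (α β γ : W k) (hα : φ α * v = φ β + φ γ * u)
    (hz : ∃ (δ : W k) (z : MvPolynomial (Fin 2) k), z ≠ 0 ∧ δ * α = nf k (expand p z)) :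
    NN p φ u v := by
  obtain ⟨δ, z, hz, hd⟩ := hz
  refine ⟨z, hz, δ * β, δ * γ, ?_⟩
  rw [← hd, map_mul, mul_assoc, hα]
  simp only [map_mul]
  noncomm_ring

include hcen hmul in
theorem NN_right {w g : W k} (hg : NN p φ u g) (hug : NN p φ u (u * g)) (h : NN p φ u w) :
    NN p φ u (w * g) := by
  obtain ⟨z, hz, a, b, hab⟩ := h
  refine NN_div p φ u hmul z hz ?_
  have e : φ (nf k (expand p z)) * (w * g) = φ a * g + φ b * (u * g) := by
    rw [← mul_assoc, hab, add_mul, mul_assoc]
  rw [e]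
  exact NN_add p φ u hmul (NN_left p φ u hcen hg a) (NN_left p φ u hcen hug b)

theorem NN_one : NN p φ u 1 := by
  refine ⟨1, one_ne_zero, 1, 0, ?_⟩
  rw [map_one, nf_one, map_one, map_zero, zero_mul, add_zero, mul_one]

include hcen hmul in
theorem NN_all (hx : NN p φ u (wx k)) (hy : NN p φ u (wy k)) (hux : NN p φ u (u * wx k))
    (huy : NN p φ u (u * wy k)) (w : W k) : NN p φ u w := by
  have h1 : ∀ i : ℕ, NN p φ u (wx k ^ i) := by
    intro i
    induction i with
    | zero => rw [pow_zero]; exact NN_one p φ u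
    | succ n ih => rw [pow_succ]; exact NN_right p φ u hcen hmul hx hux ih
  have h2 : ∀ i j : ℕ, NN p φ u (wx k ^ i * wy k ^ j) := by
    intro i j
    induction j with
    | zero => rw [pow_zero, mul_one]; exact h1 i
    | succ n ih => rw [pow_succ, ← mul_assoc]; exact NN_right p φ u hcen hmul hy huy ih
  obtain ⟨F, rfl⟩ := (nf k).surjective w
  induction F using MvPolynomial.induction_on' with
  | monomial m c =>
    rw [nf_monomial]
    have h3 := NN_left p φ u hcen (h2 (m 0) (m 1)) (algebraMap k (W k) c)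
    rw [AlgHom.commutes, ← Algebra.smul_def] at h3
    exact h3
  | add q r hq hr =>
    rw [map_add]
    exact NN_add p φ u hmul hq hr

end

theorem main (h1 : S_CMU) (h2 : S_LFT) (h3 : S_EVX) (h4 : S_CEN) : S_DEN := by
  intro p _ k _ _ P Q u α β γ f g hPQ hP hQ hα hrel w
  obtain ⟨φ, hφ⟩ := h2 k (W k) P Q hPQ
  have hc : ∀ z, φ (nf k (expand p z)) = nf k (expand p (aeval ![f, g] z)) := fun z => by
    rw [hφ, h3 p k P Q f g z hP hQ]
  have hcen : ∀ (z : MvPolynomial (Fin 2) k) (w : W k),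
      φ (nf k (expand p z)) * w = w * φ (nf k (expand p z)) := by
    intro z w
    obtain ⟨F, rfl⟩ := (nf k).surjective w
    rw [hc, (h4 p k _ F).1, (h4 p k _ F).2]
  have hmul : ∀ z z' : MvPolynomial (Fin 2) k,
      nf k (expand p (z * z')) = nf k (expand p z) * nf k (expand p z') := by
    intro z z'
    rw [map_mul, (h4 p k z _).1]
  have key : ∀ (v : W k) (t : Fin 4), ev P Q (α t) * v = ev P Q (β t) + ev P Q (γ t) * u →
      NN p φ u v := by
    intro v t hv
    rw [← hφ, ← hφ, ← hφ] at hv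
    refine NN_rel p φ u _ _ _ hv ?_
    obtain ⟨b, z, hz, hb⟩ := h1 p k (α t) (hα t)
    exact ⟨nf k b, z, hz, hb⟩
  obtain ⟨r0, r1, r2, r3⟩ := hrel
  obtain ⟨z, hz, a, b, hab⟩ := NN_all p φ u hcen hmul (key _ 0 r0) (key _ 1 r1) (key _ 2 r2)
    (key _ 3 r3) w
  refine ⟨z, (nf k).symm a, (nf k).symm b, hz, ?_⟩
  rw [← hc, hab, ← hφ, ← hφ, LinearEquiv.apply_symm_apply, LinearEquiv.apply_symm_apply]

end Pool.Agent.W236.DX.Den
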